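import Pool.Agent.Lib.MP_6bc78b_nt.MS.P3.Iface

/-! Project MS (MP_6bc78b_nt), Part III, module BL: the mollifier coefficients as line
integrals. -/

set_option autoImplicit false

open Complex Filter Topology ArithmeticFunction

namespace Pool.Agent.Lib.MP_6bc78b_nt.MS.P3.H38

open Pool.Agent.Lib.MP_6bc78b_nt.MS Pool.Agent.Lib.MP_6bc78b_nt.MS.P3

theorem ln_ne (u : ℝ) : ln u ≠ 0 := by
  intro h
  have := congrArg Complex.re h
  simp [ln] at this

theorem integrand_eq (th c1 c2 T : ℝ) (hth : 0 < th) (hT : 1 < T) (n : ℕ) (hn : n ≠ 0) (u : ℝ) :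
    PH th c1 c2 (ln u) * Complex.exp (th * ln u) * (n : ℂ) ^ (-(ln u / Real.log T)) =
      (c1 / th : ℂ) * (Complex.exp (((th - Real.log n / Real.log T : ℝ) : ℂ) * ln u) /
        ln u ^ (1 + 1)) +
      (2 * c2 / th ^ 2 : ℂ) * (Complex.exp (((th - Real.log n / Real.log T : ℝ) : ℂ) * ln u) /
        ln u ^ (2 + 1)) := by
  have hL : (Real.log T : ℂ) ≠ 0 := by
    exact_mod_cast (Real.log_pos hT).ne'
  have hth' : (th : ℂ) ≠ 0 := by exact_mod_cast hth.ne'
  have hln := ln_ne u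
  have hexp : Complex.exp (th * ln u) * (n : ℂ) ^ (-(ln u / Real.log T)) =
      Complex.exp (((th - Real.log n / Real.log T : ℝ) : ℂ) * ln u) := by
    rw [Complex.cpow_def_of_ne_zero (by exact_mod_cast hn), ← Complex.exp_add, ← Complex.natCast_log]
    congr 1
    push_cast
    field_simp
    ring
  rw [mul_assoc, hexp]
  unfold PH
  field_simp
  ring

theorem bl (h : LapStatement) : BlStatement := by
  intro th c1 c2 T hth hT n hn
  have hL : 0 < Real.log T := Real.log_pos hT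
  obtain ⟨x, hx⟩ : ∃ x : ℝ, x = th - Real.log n / Real.log T := ⟨_, rfl⟩
  have hfun : (fun u : ℝ => PH th c1 c2 (ln u) * Complex.exp (th * ln u) *
      (n : ℂ) ^ (-(ln u / Real.log T))) = fun u : ℝ =>
      (c1 / th : ℂ) * (Complex.exp ((x : ℂ) * ln u) / ln u ^ (1 + 1)) +
      (2 * c2 / th ^ 2 : ℂ) * (Complex.exp ((x : ℂ) * ln u) / ln u ^ (2 + 1)) := by
    funext u
    rw [integrand_eq th c1 c2 T hth hT n hn u, hx]
  obtain ⟨i1, e1⟩ := h 1 x (le_refl 1)
  obtain ⟨i2, e2⟩ := h 2 x (by norm_num)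
  have j1 := i1.const_mul (c1 / th : ℂ)
  have j2 := i2.const_mul (2 * c2 / th ^ 2 : ℂ)
  rw [hfun]
  refine ⟨j1.add j2, ?_⟩
  rw [MeasureTheory.integral_add j1 j2, MeasureTheory.integral_const_mul,
    MeasureTheory.integral_const_mul, mul_add,
    mul_left_comm _ (c1 / th : ℂ), mul_left_comm _ (2 * c2 / th ^ 2 : ℂ), e1, e2]
  have hn0 : (0 : ℝ) < n := by exact_mod_cast Nat.pos_of_ne_zero hn
  have hT0 : 0 < T := by linarith
  have hiff : ((n : ℝ) ≤ T ^ th) ↔ 0 ≤ x := by
    rw [← Real.log_le_log_iff hn0 (Real.rpow_pos_of_pos hT0 th), Real.log_rpow hT0, hx,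
      sub_nonneg, div_le_iff₀ hL]
  have hPP : 1 - Real.log n / (th * Real.log T) = x / th := by
    rw [hx]
    field_simp
  unfold betf
  split_ifs with hle
  · have hx0 := hiff.1 hle
    rw [hPP, max_eq_left hx0]
    have hth' : (th : ℂ) ≠ 0 := by exact_mod_cast hth.ne'
    unfold PP
    push_cast
    simp only [Nat.factorial]
    push_cast
    field_simp
    try ring
  · have hx0 : x < 0 := by
      by_contra hcon
      exact hle (hiff.2 (not_lt.1 hcon))
    rw [max_eq_right hx0.le]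
    norm_num

end Pool.Agent.Lib.MP_6bc78b_nt.MS.P3.H38
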